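import Pool.Agent.H458.AG.Def

/-!
# Many irreducible polynomials of degree `n` without term of degree `n - 1` over a finite field
-/

set_option autoImplicit false
set_option linter.all false

open Polynomial
open scoped Classical IntermediateField

namespace Pool.Agent.H372.AG458

/-- polynomials are determined by their low coefficients -/
theorem ext_low {k : Type} [Field k] (d : ℕ) (hd : 1 ≤ d) (p q : k[X]) (hp : p.Monic) (hq : q.Monic)
    (hp1 : p.natDegree = d) (hq1 : q.natDegree = d) (hp2 : p.coeff (d - 1) = 0)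
    (hq2 : q.coeff (d - 1) = 0) (h : ∀ i < d - 1, p.coeff i = q.coeff i) : p = q := by
  ext i
  rcases lt_trichotomy i (d - 1) with h1 | h1 | h1
  · exact h i h1
  · rw [h1, hp2, hq2]
  · rcases Nat.lt_or_ge d i with h2 | h2
    · rw [coeff_eq_zero_of_natDegree_lt (by omega), coeff_eq_zero_of_natDegree_lt (by omega)]
    · have h3 : i = d := by omega
      rw [h3]
      have h4 := hp.coeff_natDegree
      have h5 := hq.coeff_natDegree
      rw [hp1] at h4
      rw [hq1] at h5
      rw [h4, h5]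

section

variable {k K : Type} [Field k] [Fintype k] [Field K] [Fintype K] [Algebra k K]

/-- the elements of trace zero and degree `d` -/
noncomputable def Bd (k K : Type) [Field k] [Field K] [Fintype K] [Algebra k K] (d : ℕ) : Finset K :=
  Finset.univ.filter fun x => (minpoly k x).natDegree = d ∧ (minpoly k x).coeff (d - 1) = 0

theorem int (x : K) : IsIntegral k x := by
  have : Module.Finite k K := Module.Finite.of_finite
  exact Algebra.IsIntegral.isIntegral x

/-- at most `n` elements have a given minimal polynomial -/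
theorem fiber (d : ℕ) (s : Finset K) (P : k[X]) (hP : P ≠ 0) (hd : P.natDegree ≤ d)
    (h : ∀ x ∈ s, minpoly k x = P) : s.card ≤ d := by
  have h1 : s ⊆ (P.aroots K).toFinset := by
    intro x hx
    rw [Multiset.mem_toFinset, mem_aroots]
    refine ⟨hP, ?_⟩
    rw [← h x hx]
    exact minpoly.aeval k x
  refine (Finset.card_le_card h1).trans ((Multiset.toFinset_card_le _).trans ?_)
  exact (card_roots' _).trans ((natDegree_map_le).trans hd)

theorem card_Bd (d : ℕ) (hd : 1 ≤ d) : (Bd k K d).card ≤ d * Fintype.card k ^ (d - 1) := by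
  have h1 : ∀ x ∈ Bd k K d, (fun i : Fin (d - 1) => (minpoly k x).coeff i) ∈
      (Finset.univ : Finset (Fin (d - 1) → k)) := fun _ _ => Finset.mem_univ _
  have h2 := Finset.card_le_mul_card_image_of_maps_to h1 d (fun b _ => ?_)
  · rw [Finset.card_univ, Fintype.card_fun, Fintype.card_fin] at h2
    exact h2
  · rcases Finset.eq_empty_or_nonempty
      {a ∈ Bd k K d | (fun i : Fin (d - 1) => (minpoly k a).coeff i) = b} with h3 | ⟨x0, hx0⟩
    · rw [h3]
      simp
    · rw [Finset.mem_filter, Bd, Finset.mem_filter] at hx0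
      refine fiber d _ (minpoly k x0) (minpoly.ne_zero (int x0)) hx0.1.2.1.le ?_
      intro x hx
      rw [Finset.mem_filter, Bd, Finset.mem_filter] at hx
      refine ext_low d hd _ _ (minpoly.monic (int x)) (minpoly.monic (int x0)) hx.1.2.1 hx0.1.2.1
        hx.1.2.2 hx0.1.2.2 ?_
      intro i hi
      have h4 := congrFun (hx.2.trans hx0.2.symm) ⟨i, hi⟩
      exact h4

/-- the irreducible polynomials -/
def Ir (k : Type) [Field k] (n : ℕ) : Set k[X] :=
  {p : k[X] | p.Monic ∧ p.natDegree = n ∧ p.coeff (n - 1) = 0 ∧ Irreducible p}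

theorem Ir_finite (n : ℕ) (hn : 1 ≤ n) : (Ir k n).Finite := by
  refine Set.Finite.of_finite_image (f := fun p : k[X] => fun i : Fin (n - 1) => p.coeff i)
    (Set.toFinite _) ?_
  intro p hp q hq h
  refine ext_low n hn p q hp.1 hq.1 hp.2.1 hq.2.1 hp.2.2.1 hq.2.2.1 ?_
  intro i hi
  exact congrFun h ⟨i, hi⟩

theorem card_top (n : ℕ) (hn : 1 ≤ n) : (Bd k K n).card ≤ n * (Ir k n).ncard := by
  rw [Set.ncard_eq_toFinset_card _ (Ir_finite n hn)]
  refine Finset.card_le_mul_card_image_of_maps_to (f := fun x => minpoly k x) ?_ n ?_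
  · intro x hx
    rw [Bd, Finset.mem_filter] at hx
    rw [Set.Finite.mem_toFinset]
    exact ⟨minpoly.monic (int x), hx.2.1, hx.2.2, minpoly.irreducible (int x)⟩
  · intro P hP
    rw [Set.Finite.mem_toFinset] at hP
    refine fiber n _ P hP.1.ne_zero hP.2.1.le ?_
    intro x hx
    exact (Finset.mem_filter.1 hx).2

/-- the number of the elements of trace zero -/
theorem card_tr (n : ℕ) (hn : 1 ≤ n) (hK : Module.finrank k K = n) :
    Fintype.card k ^ (n - 1) =
      (Finset.univ.filter fun x : K => Algebra.trace k K x = 0).card := by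
  have : Module.Finite k K := Module.Finite.of_finite
  have h1 : Function.Surjective (Algebra.trace k K) := Algebra.trace_surjective k K
  have h2 := LinearMap.finrank_range_add_finrank_ker (Algebra.trace k K)
  rw [LinearMap.range_eq_top.2 h1, finrank_top, Module.finrank_self, hK] at h2
  have h3 : Module.finrank k (LinearMap.ker (Algebra.trace k K)) = n - 1 := by omega
  have h4 := Module.natCard_eq_pow_finrank (K := k) (V := LinearMap.ker (Algebra.trace k K))
  rw [h3, Nat.card_eq_fintype_card, Nat.card_eq_fintype_card] at h4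
  rw [← h4, Fintype.card_subtype]
  congr 1

theorem cover (n : ℕ) (hn : 1 ≤ n) (hK : Module.finrank k K = n) (hf : (n.factorial : k) ≠ 0) :
    (Finset.univ.filter fun x : K => Algebra.trace k K x = 0) ⊆
      Bd k K n ∪ (Finset.Icc 1 (n / 2)).biUnion (Bd k K) := by
  have : Module.Finite k K := Module.Finite.of_finite
  intro x hx
  rw [Finset.mem_filter] at hx
  have h1 := hx.2
  rw [trace_eq_finrank_mul_minpoly_nextCoeff] at h1
  have h2 : Module.finrank k k⟮x⟯ * Module.finrank k⟮x⟯ K = n := by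
    rw [Module.finrank_mul_finrank, hK]
  have h3 : Module.finrank k k⟮x⟯ = (minpoly k x).natDegree := IntermediateField.adjoin.finrank (int x)
  have hd0 : 0 < (minpoly k x).natDegree := minpoly.natDegree_pos (int x)
  have he0 : 0 < Module.finrank k⟮x⟯ K := by
    rcases Nat.eq_zero_or_pos (Module.finrank k⟮x⟯ K) with h | h
    · rw [h, mul_zero] at h2
      omega
    · exact h
  have he : ((Module.finrank k⟮x⟯ K : ℕ) : k) ≠ 0 := by
    intro h
    apply hf
    have h4 : Module.finrank k⟮x⟯ K ∣ n.factorial := by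
      refine Nat.dvd_factorial he0 ?_
      rw [← h2]
      exact Nat.le_mul_of_pos_left _ (by rw [h3]; exact hd0)
    obtain ⟨c, hc⟩ := h4
    rw [hc, Nat.cast_mul, h, zero_mul]
  have h5 : (minpoly k x).nextCoeff = 0 := by
    rcases mul_eq_zero.1 h1 with h | h
    · exact absurd h he
    · exact neg_eq_zero.1 h
  rw [nextCoeff_of_natDegree_pos hd0] at h5
  have h6 : x ∈ Bd k K (minpoly k x).natDegree := by
    rw [Bd, Finset.mem_filter]
    exact ⟨Finset.mem_univ _, rfl, h5⟩
  rw [h3] at h2
  rw [Finset.mem_union, Finset.mem_biUnion]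
  rcases Nat.lt_or_ge 1 (Module.finrank k⟮x⟯ K) with h7 | h7
  · right
    refine ⟨_, Finset.mem_Icc.2 ⟨hd0, ?_⟩, h6⟩
    rw [Nat.le_div_iff_mul_le two_pos, ← h2]
    exact Nat.mul_le_mul_left _ h7
  · left
    have h8 : Module.finrank k⟮x⟯ K = 1 := by omega
    rw [h8, mul_one] at h2
    rwa [h2] at h6

end

theorem geo (s m : ℕ) : (∑ d ∈ Finset.range m, (s + 1) ^ d) * s + 1 = (s + 1) ^ m := by
  induction m with
  | zero => simp
  | succ m ih =>
    rw [Finset.sum_range_succ, add_mul, pow_succ, ← ih]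
    ring_nf

theorem arith (q n : ℕ) (hq : n < q) (m : ℕ) (hm : 2 * m ≤ n) :
    2 * ∑ d ∈ Finset.Icc 1 m, d * q ^ (d - 1) ≤ q ^ m := by
  have h1 : ∑ d ∈ Finset.Icc 1 m, d * q ^ (d - 1) ≤ ∑ d ∈ Finset.Icc 1 m, m * q ^ (d - 1) :=
    Finset.sum_le_sum fun d hd => Nat.mul_le_mul_right _ (Finset.mem_Icc.1 hd).2
  have h2 : ∑ d ∈ Finset.Icc 1 m, m * q ^ (d - 1) = m * ∑ d ∈ Finset.range m, q ^ d := by
    rw [← Finset.mul_sum]
    congr 1
    rw [Finset.range_eq_Ico, Finset.sum_Ico_eq_sum_range]
    rw [show Finset.Icc 1 m = Finset.Ico 1 (m + 1) from rfl, Finset.sum_Ico_eq_sum_range]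
    refine Finset.sum_congr rfl fun d _ => ?_
    congr 1
    omega
  rw [h2] at h1
  obtain ⟨s, rfl⟩ : ∃ s, q = s + 1 := ⟨q - 1, by omega⟩
  have h3 := geo s m
  have h5 : 2 * m ≤ s := by omega
  have h6 := Nat.mul_le_mul_right (∑ d ∈ Finset.range m, (s + 1) ^ d) h5
  calc 2 * ∑ d ∈ Finset.Icc 1 m, d * (s + 1) ^ (d - 1)
      ≤ 2 * (m * ∑ d ∈ Finset.range m, (s + 1) ^ d) := Nat.mul_le_mul_left _ h1
    _ = 2 * m * ∑ d ∈ Finset.range m, (s + 1) ^ d := by ring
    _ ≤ s * ∑ d ∈ Finset.range m, (s + 1) ^ d := h6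
    _ = (∑ d ∈ Finset.range m, (s + 1) ^ d) * s := by ring
    _ ≤ (s + 1) ^ m := by rw [← h3]; exact Nat.le_succ _

theorem main (k : Type) [Field k] [Finite k] (n : ℕ) (hn : 2 ≤ n) (hf : (n.factorial : k) ≠ 0) :
    Nat.card k ^ (n - 1) ≤
      2 * n * {p : k[X] | p.Monic ∧ p.natDegree = n ∧ p.coeff (n - 1) = 0 ∧ Irreducible p}.ncard := by
  have : Fintype k := Fintype.ofFinite k
  obtain ⟨p, hp⟩ := CharP.exists k
  have hpp : Fact p.Prime := ⟨CharP.char_is_prime k p⟩
  have : NeZero n := ⟨by omega⟩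
  have : Fintype (FiniteField.Extension k p n) := Fintype.ofFinite _
  have hK : Module.finrank k (FiniteField.Extension k p n) = n := FiniteField.finrank_extension k p n
  rw [Nat.card_eq_fintype_card]
  set q := Fintype.card k with hqdef
  have hq : n < q := by
    by_contra hcon
    push Not at hcon
    have h1 : q ∣ n.factorial := Nat.dvd_factorial Fintype.card_pos hcon
    obtain ⟨c, hc⟩ := h1
    apply hf
    rw [hc, Nat.cast_mul, hqdef, Nat.cast_card_eq_zero, zero_mul]
  have h1 := card_tr (k := k) (K := FiniteField.Extension k p n) n (by omega) hK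
  have h2 := Finset.card_le_card
    (cover (k := k) (K := FiniteField.Extension k p n) n (by omega) hK hf)
  have h3 := (h1.le.trans h2).trans ((Finset.card_union_le _ _).trans
    (Nat.add_le_add_left Finset.card_biUnion_le _))
  have h4 : ∑ d ∈ Finset.Icc 1 (n / 2), (Bd k (FiniteField.Extension k p n) d).card ≤
      ∑ d ∈ Finset.Icc 1 (n / 2), d * q ^ (d - 1) :=
    Finset.sum_le_sum fun d hd => card_Bd d (Finset.mem_Icc.1 hd).1
  have h5 := arith q n hq (n / 2) (by omega)
  have h6 : q ^ (n / 2) ≤ q ^ (n - 1) := Nat.pow_le_pow_right (by omega) (by omega)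
  have h7 := card_top (k := k) (K := FiniteField.Extension k p n) n (by omega)
  have h8 : (Ir k n).ncard =
    {p : k[X] | p.Monic ∧ p.natDegree = n ∧ p.coeff (n - 1) = 0 ∧ Irreducible p}.ncard := rfl
  rw [← h8]
  have h9 : 2 * n * (Ir k n).ncard = 2 * (n * (Ir k n).ncard) := by ring
  rw [h9]
  have h10 := h3.trans (Nat.add_le_add h7 h4)
  rw [← hqdef] at h10
  generalize q ^ (n - 1) = A at h6 h10 ⊢
  generalize n * (Ir k n).ncard = B at h10 ⊢
  generalize ∑ d ∈ Finset.Icc 1 (n / 2), d * q ^ (d - 1) = C at h5 h10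
  generalize q ^ (n / 2) = E at h5 h6
  clear h1 h2 h3 h4 h7 h8 h9
  omega

/-- **S_IRC** -/
theorem irc : Pool.Agent.H458.AG.S_IRC := fun k _ _ n hn hf => main k n hn hf

end Pool.Agent.H372.AG458
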